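import Mathlib
import Pool.Agent.PLP33.Mat

/-!
# The points-lines-planes conjecture (Mason 1972)

Proof in four steps (files in `Pool/Agent/PLP33`).

1. For a potential `a` on the points put `w g x = 1 / k - (a x - mean of a on g)` for a point `x`
   on a line `g` with `k` points.  The potential is chosen such that every point has the same load
   `∑ w g x = t / n` (sum over the lines through `x`).  Two distinct intersecting lines lie in
   exactly one plane, so `t ^ 2 / n` is the total energy `∑ w g x ^ 2` plus the sum over the planes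
   of a local quantity `J`.
2. In a plane with `q` points and `l` lines, for every potential,
   `J ≥ l ^ 2 / q - ∑ 1 / (k - 1)`.
3. With the de Bruijn - Erdos theorem `q ≤ l` and a separate computation for near-pencils this
   gives `J ≥ 3 / 2`.
4. The energy is at least `t ^ 2 / (n * (n - 1))`.
-/

namespace Pool.Agent.Results.MP_5bba21_co.PointsLinesPlanes

open Set

/-- Every finite simple matroid of rank at least three with `n` points, `t` lines and `p` planes
satisfies `t ^ 2 ≥ 3 n (n - 1) / (2 (n - 2)) * p`, with equality only if every plane has exactly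
three points. -/
theorem result {α : Type*} (M : Matroid α) [M.Finite]
    (hs : ∀ e ∈ M.E, ∀ f ∈ M.E, M.Indep {e, f}) (hr : 3 ≤ M.eRank) (n t p : ℝ)
    (hn : n = (M.E.ncard : ℝ))
    (ht : t = ({F : Set α | M.IsFlat F ∧ M.eRk F = 2}.ncard : ℝ))
    (hp : p = ({F : Set α | M.IsFlat F ∧ M.eRk F = 3}.ncard : ℝ)) :
    3 * n * (n - 1) / (2 * (n - 2)) * p ≤ t ^ 2 ∧
    (t ^ 2 = 3 * n * (n - 1) / (2 * (n - 2)) * p →
      ∀ F : Set α, M.IsFlat F → M.eRk F = 3 → F.ncard = 3) := by
  have hE : M.E.Finite := M.ground_finite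
  have h3 : 3 ≤ M.E.ncard := by
    have h1 : (3 : ℕ∞) ≤ M.E.encard := hr.trans M.eRank_le_encard_ground
    rw [← hE.cast_ncard_eq] at h1
    exact_mod_cast h1
  have hn3 : 3 ≤ n := by rw [hn]; exact_mod_cast h3
  obtain ⟨h1, h2⟩ := Pool.Agent.PLP33.matroid_main M hs h3
  rw [← hn, ← ht, ← hp] at h1 h2
  have hn0 : n ≠ 0 := by linarith
  have hn1 : n - 1 ≠ 0 := by linarith
  have hn2 : 0 < n - 2 := by linarith
  have hpos : 0 < n * (n - 1) := mul_pos (by linarith) (by linarith)
  have e1 : t ^ 2 = 2 * n * (n - 1) / (2 * (n - 2)) * (t ^ 2 * (n - 2) / (n * (n - 1))) := by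
    field_simp
  have e2 : 3 * n * (n - 1) / (2 * (n - 2)) * p =
      2 * n * (n - 1) / (2 * (n - 2)) * (3 / 2 * p) := by
    ring
  have hc : 0 < 2 * n * (n - 1) / (2 * (n - 2)) := by
    apply div_pos
    · have : 2 * n * (n - 1) = 2 * (n * (n - 1)) := by ring
      rw [this]; linarith
    · linarith
  constructor
  · rw [e1, e2]
    exact mul_le_mul_of_nonneg_left h1 hc.le
  · intro heq
    apply h2
    rw [e1, e2] at heq
    exact (mul_left_cancel₀ hc.ne' heq).symm

end Pool.Agent.Results.MP_5bba21_co.PointsLinesPlanes
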